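import Pool.Agent.K6.H99.EC.Defs

/-!
# Roots of `X ^ 2 - t X + q`
-/

set_option autoImplicit false
set_option linter.unusedSectionVars false

namespace Pool.Agent.K6.H99.EC

section

variable {L : Type*} [Field L] [CharZero L]

/-- The supersingular case. -/
theorem pow_of_dvd {q : ℕ} (hq : q ≠ 0) {t : ℤ} (ht : t ^ 2 ≤ 4 * q) (hd : (q : ℤ) ∣ t ^ 2) {z : L}
    (hz : z ^ 2 + q = t * z) : z ^ 24 = (q : L) ^ 12 := by
  obtain ⟨k, hk⟩ := hd
  have hq0 : (0 : ℤ) < q := by exact_mod_cast Nat.pos_of_ne_zero hq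
  have hk0 : 0 ≤ k := by
    by_contra h
    push Not at h
    have h1 : (q : ℤ) * k < 0 := mul_neg_of_pos_of_neg hq0 h
    have h2 := sq_nonneg t
    omega
  have hk4 : k ≤ 4 := by
    by_contra h
    push Not at h
    have h1 : (q : ℤ) * 4 < q * k := by
      refine mul_lt_mul_of_pos_left h hq0
    omega
  have h1 : (z ^ 2 + q) ^ 2 = (k * q : L) * z ^ 2 := by
    rw [hz, mul_pow]
    have h2 : ((t : L)) ^ 2 = (k * q : L) := by
      have h3 := congrArg (fun n : ℤ => (n : L)) hk
      push_cast at h3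
      rw [h3]
      ring
    rw [h2]
  interval_cases k
  · have h2 : (z ^ 2 + q) ^ 2 = 0 := by rw [h1]; push_cast; ring
    have h3 : z ^ 2 = -q := by
      have := pow_eq_zero_iff (two_ne_zero) |>.1 h2
      linear_combination this
    calc z ^ 24 = (z ^ 2) ^ 12 := by ring
      _ = _ := by rw [h3]; ring
  · have h3 : z ^ 6 = (q : L) ^ 3 := by
      push_cast at h1
      linear_combination (z ^ 2 - q) * h1
    calc z ^ 24 = (z ^ 6) ^ 4 := by ring
      _ = _ := by rw [h3]; ring
  · have h3 : z ^ 4 = -(q : L) ^ 2 := by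
      push_cast at h1
      linear_combination h1
    calc z ^ 24 = (z ^ 4) ^ 6 := by ring
      _ = _ := by rw [h3]; ring
  · have h3 : z ^ 6 = -(q : L) ^ 3 := by
      push_cast at h1
      linear_combination (z ^ 2 + q) * h1
    calc z ^ 24 = (z ^ 6) ^ 4 := by ring
      _ = _ := by rw [h3]; ring
  · have h2 : (z ^ 2 - q) ^ 2 = 0 := by
      push_cast at h1
      linear_combination h1
    have h3 : z ^ 2 = q := by
      have := pow_eq_zero_iff (two_ne_zero) |>.1 h2
      linear_combination this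
    calc z ^ 24 = (z ^ 2) ^ 12 := by ring
      _ = _ := by rw [h3]

/-- An element `Z` with `Z ^ 2 - q c Z + q ^ 2 = 0` and `c ^ 2 ≤ 4`. -/
theorem pow_of_quad {q c : ℤ} (hc : c ^ 2 ≤ 4) {Z : L} (hZ : Z ^ 2 - q * c * Z + q ^ 2 = 0) :
    Z ^ 12 = (q : L) ^ 12 := by
  have h1 : -2 ≤ c := by nlinarith
  have h2 : c ≤ 2 := by nlinarith
  interval_cases c
  · have h3 : (Z + q) ^ 2 = 0 := by push_cast at hZ; linear_combination hZ
    have h4 : Z = -q := by
      have := pow_eq_zero_iff (two_ne_zero) |>.1 h3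
      linear_combination this
    rw [h4]; ring
  · have h3 : Z ^ 3 = (q : L) ^ 3 := by push_cast at hZ; linear_combination (Z - q) * hZ
    calc Z ^ 12 = (Z ^ 3) ^ 4 := by ring
      _ = _ := by rw [h3]; ring
  · have h3 : Z ^ 2 = -(q : L) ^ 2 := by push_cast at hZ; linear_combination hZ
    calc Z ^ 12 = (Z ^ 2) ^ 6 := by ring
      _ = _ := by rw [h3]; ring
  · have h3 : Z ^ 3 = -(q : L) ^ 3 := by push_cast at hZ; linear_combination (Z + q) * hZ
    calc Z ^ 12 = (Z ^ 3) ^ 4 := by ring
      _ = _ := by rw [h3]; ring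
  · have h3 : (Z - q) ^ 2 = 0 := by push_cast at hZ; linear_combination hZ
    have h4 : Z = q := by
      have := pow_eq_zero_iff (two_ne_zero) |>.1 h3
      linear_combination this
    rw [h4]

/-- Two ordinary elements of the same imaginary quadratic field. -/
theorem pow_of_same {p a q : ℕ} (hp : p.Prime) (hq : q = p ^ a) {t t' m : ℤ}
    (ht : t ^ 2 ≤ 4 * q) (ht' : t' ^ 2 ≤ 4 * q) (hc : IsCoprime t (q : ℤ))
    (hc' : IsCoprime t' (q : ℤ)) {z z' : L} (hz : z ^ 2 + q = t * z) (hz' : z' ^ 2 + q = t' * z')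
    (hm : (2 * z - t) * (2 * z' - t') = m) (hz0 : z ≠ t) :
    (z * z') ^ 12 = (q : L) ^ 12 ∨ z' ^ 12 = z ^ 12 := by
  have hp1 := hp.one_lt
  have hq0 : q ≠ 0 := by rw [hq]; exact pow_ne_zero _ hp.ne_zero
  have hqpos : (0 : ℤ) < q := by exact_mod_cast Nat.pos_of_ne_zero hq0
  -- the square of `m`
  have hm2 : m ^ 2 = (4 * q - t ^ 2) * (4 * q - t' ^ 2) := by
    have h1 : ((m ^ 2 : ℤ) : L) = (((4 * q - t ^ 2) * (4 * q - t' ^ 2) : ℤ) : L) := by
      push_cast
      rw [← hm]
      have h2 : (2 * z - t) ^ 2 = (t : L) ^ 2 - 4 * q := by linear_combination 4 * hz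
      have h3 : (2 * z' - t') ^ 2 = (t' : L) ^ 2 - 4 * q := by linear_combination 4 * hz'
      rw [mul_pow, h2, h3]
      ring
    exact_mod_cast h1
  -- the two traces
  have hprod : (t * t' + m) * (t * t' - m) = 4 * (q * (t ^ 2 + t' ^ 2 - 4 * q)) := by
    linear_combination -hm2
  have heven : Even (t * t' + m) := by
    have h1 : Even ((t * t' + m) * (t * t' - m)) := by
      rw [hprod]
      exact ⟨2 * (q * (t ^ 2 + t' ^ 2 - 4 * q)), by ring⟩
    rcases Int.even_mul.1 h1 with h2 | h2
    · exact h2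
    · have h3 : t * t' + m = (t * t' - m) + 2 * m := by ring
      rw [h3]
      exact h2.add (even_two_mul m)
  obtain ⟨P, hP⟩ := heven
  have hN : t * t' - m = 2 * (t * t' - P) := by omega
  set N := t * t' - P with hNdef
  have hPN : P * N = q * (t ^ 2 + t' ^ 2 - 4 * q) := by
    rw [hP, hN] at hprod
    linarith
  have hsum : P + N = t * t' := by rw [hNdef]; ring
  have hcop : IsCoprime (t * t') (q : ℤ) := hc.mul_left hc'
  have hpq : IsCoprime (t * t') (p : ℤ) ∨ a = 0 := by
    rcases Nat.eq_zero_or_pos a with h | h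
    · exact Or.inr h
    · left
      rw [hq] at hcop
      push_cast at hcop
      exact (IsCoprime.pow_right_iff h).1 hcop
  have hcase : (q : ℤ) ∣ P ∨ (q : ℤ) ∣ N := by
    rcases hpq with h | h
    · by_cases hdP : (p : ℤ) ∣ P
      · left
        have hdN : ¬ (p : ℤ) ∣ N := by
          intro h3
          have h4 : (p : ℤ) ∣ t * t' := by rw [← hsum]; exact dvd_add hdP h3
          have h5 := h.isUnit_of_dvd' h4 dvd_rfl
          rw [Int.isUnit_iff] at h5
          omega
        have h6 : IsCoprime (N : ℤ) ((p : ℤ) ^ a) := by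
          apply IsCoprime.pow_right
          exact ((Nat.prime_iff_prime_int.1 hp).coprime_iff_not_dvd.2 hdN).symm
        have h7 : (q : ℤ) ∣ P * N := ⟨_, hPN⟩
        rw [hq] at h7 ⊢
        push_cast at h7 ⊢
        exact h6.symm.dvd_of_dvd_mul_right h7
      · right
        have h6 : IsCoprime (P : ℤ) ((p : ℤ) ^ a) := by
          apply IsCoprime.pow_right
          exact ((Nat.prime_iff_prime_int.1 hp).coprime_iff_not_dvd.2 hdP).symm
        have h7 : (q : ℤ) ∣ P * N := ⟨_, hPN⟩
        rw [hq] at h7 ⊢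
        push_cast at h7 ⊢
        exact h6.symm.dvd_of_dvd_mul_left h7
    · left
      rw [hq, h]
      simp
  have hPL : (2 : L) * P = t * t' + m := by
    have := congrArg (fun n : ℤ => (n : L)) hP
    push_cast at this
    linear_combination -this
  have hNL : (2 : L) * N = t * t' - m := by
    have := congrArg (fun n : ℤ => (n : L)) hN
    push_cast at this
    linear_combination -this
  have hbound : ∀ s : ℤ, s ^ 2 = m ^ 2 → (t * t' + s) ^ 2 ≤ 16 * (q : ℤ) ^ 2 := by
    intro s hs
    have h1 : 0 ≤ 4 * (q : ℤ) - t ^ 2 := by omega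
    have h2 : 0 ≤ 4 * (q : ℤ) - t' ^ 2 := by omega
    have h3 : 0 ≤ 2 * q * (t ^ 2 + t' ^ 2) - t ^ 2 * t' ^ 2 := by
      nlinarith [mul_nonneg (sq_nonneg t) h2, mul_nonneg (sq_nonneg t') h1]
    have h4 : (t * t' * s) ^ 2 ≤ (2 * q * (t ^ 2 + t' ^ 2) - t ^ 2 * t' ^ 2) ^ 2 := by
      have h5 : (t * t' * s) ^ 2 = t ^ 2 * t' ^ 2 * ((4 * q - t ^ 2) * (4 * q - t' ^ 2)) := by
        rw [← hm2, ← hs]; ring
      rw [h5]
      nlinarith [sq_nonneg (t ^ 2 * (4 * q - t' ^ 2) - t' ^ 2 * (4 * q - t ^ 2))]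
    have h6 : t * t' * s ≤ 2 * q * (t ^ 2 + t' ^ 2) - t ^ 2 * t' ^ 2 := by
      have := abs_le_of_sq_le_sq h4 h3
      exact (abs_le.1 this).2
    nlinarith [hs, hm2]
  rcases hcase with ⟨c, hcP⟩ | ⟨c, hcN⟩
  · left
    have hc4 : c ^ 2 ≤ 4 := by
      have h1 := hbound m rfl
      have h2 : t * t' + m = 2 * (q * c) := by rw [hP, hcP]; ring
      rw [h2] at h1
      have h3 : (q : ℤ) ^ 2 * c ^ 2 ≤ q ^ 2 * 4 := by nlinarith
      exact le_of_mul_le_mul_left h3 (by positivity)
    have h1 := pow_of_quad (q := q) hc4 (Z := z * z') (by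
      have h2 : (P : L) = q * c := by rw [hcP]; push_cast; ring
      have h3 : (z * z') ^ 2 - P * (z * z') + (q : L) ^ 2 = 0 := by
        have h4 : (q : L) = z * (t - z) := by linear_combination hz
        have h5 : (q : L) = z' * (t' - z') := by linear_combination hz'
        have h6 : (q : L) ^ 2 = z * (t - z) * (z' * (t' - z')) := by
          rw [sq]; nth_rw 1 [h4]; rw [← h5]
        have h7 : (P : L) = z * z' + (t - z) * (t' - z') := by
          have h8 : (2 : L) ≠ 0 := two_ne_zero
          apply mul_left_cancel₀ h8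
          rw [hPL]
          linear_combination -hm
        rw [h6, h7]
        ring
      rw [h2] at h3
      push_cast
      exact h3)
    exact_mod_cast h1
  · right
    have hc4 : c ^ 2 ≤ 4 := by
      have h1 := hbound (-m) (by ring)
      have h2 : t * t' + -m = 2 * (q * c) := by rw [← hcN, ← hN]; ring
      rw [h2] at h1
      have h3 : (q : ℤ) ^ 2 * c ^ 2 ≤ q ^ 2 * 4 := by nlinarith
      exact le_of_mul_le_mul_left h3 (by positivity)
    have h1 := pow_of_quad (q := q) hc4 (Z := (t - z) * z') (by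
      have h2 : (N : L) = q * c := by rw [hcN]; push_cast; ring
      have h3 : ((t - z) * z') ^ 2 - N * ((t - z) * z') + (q : L) ^ 2 = 0 := by
        have h4 : (q : L) = z * (t - z) := by linear_combination hz
        have h5 : (q : L) = z' * (t' - z') := by linear_combination hz'
        have h6 : (q : L) ^ 2 = z * (t - z) * (z' * (t' - z')) := by
          rw [sq]; nth_rw 1 [h4]; rw [← h5]
        have h7 : (N : L) = (t - z) * z' + z * (t' - z') := by
          have h8 : (2 : L) ≠ 0 := two_ne_zero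
          apply mul_left_cancel₀ h8
          rw [hNL]
          linear_combination hm
        rw [h6, h7]
        ring
      rw [h2] at h3
      push_cast
      exact h3)
    have h4 : (q : L) = z * (t - z) := by linear_combination hz
    have h5 : ((t : L) - z) ^ 12 * z' ^ 12 = ((t : L) - z) ^ 12 * z ^ 12 := by
      rw [← mul_pow, ← mul_pow, h1]
      push_cast
      rw [h4]
      ring
    exact mul_left_cancel₀ (pow_ne_zero _ (sub_ne_zero.2 (Ne.symm hz0))) h5

end

end Pool.Agent.K6.H99.EC
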