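import Mathlib

/-!
# Elliptic curves over finite fields: definitions
-/

set_option autoImplicit false

namespace Pool.Agent.K6.H99.EC

open Polynomial

/-- The possible traces of Frobenius of elliptic curves over the field with `q` elements (Hasse,
Deuring, Waterhouse): `t ^ 2 ≤ 4 q`, and either `t` is prime to `q` (ordinary curves) or `q` divides
`t ^ 2` (supersingular curves). -/
def IsElliptic (q : ℕ) (t : ℤ) : Prop :=
  t ^ 2 ≤ 4 * q ∧ (IsCoprime t (q : ℤ) ∨ (q : ℤ) ∣ t ^ 2)

/-- `X ^ 2 - t X + q`: the characteristic polynomials of Frobenius of the elliptic curves over the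
field with `q` elements. -/
noncomputable def ellipticPoly (q : ℕ) (t : {t : ℤ // IsElliptic q t}) : ℤ[X] :=
  X ^ 2 - C t.1 * X + C (q : ℤ)

end Pool.Agent.K6.H99.EC
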