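import Mathlib
import Pool.Agent.W484.AA.Direct
import Pool.Agent.K6.H99.EC.Alg

/-!
# Relations between Frobenius eigenvalues of elliptic curves: the second moment
-/

set_option autoImplicit false
set_option linter.unusedSectionVars false

namespace Pool.Agent.K6.H99.EC

open Polynomial Pool.Agent.H925R2 Pool.Agent.H485R3 Pool.Agent.W484.BB Pool.Agent.W521.Frob
  Pool.Agent.W484.AA

section

variable {L : Type} [Field L] [NumberField L] (p : ℕ) [Fact p.Prime] (a : ℕ)
  (ha : 0 < a) {q : ℕ} (hqp : q = p ^ a) (e : L →ₐ[ℚ] PadicAlgCl p)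

theorem isIntegral_of_quad {t : ℤ} {z : L} (hz : z ^ 2 + q = t * z) : IsIntegral ℤ z := by
  refine ⟨X ^ 2 - C t * X + C (q : ℤ), ?_, ?_⟩
  · have h1 : (X ^ 2 - C t * X + C (q : ℤ) : ℤ[X]) = X ^ 2 + (- C t * X + C (q : ℤ)) := by ring
    rw [h1]
    refine monic_X_pow_add ?_
    have h2 : (- C t * X + C (q : ℤ) : ℤ[X]) = C (-t) * X + C (q : ℤ) := by rw [map_neg]
    rw [h2]
    exact lt_of_le_of_lt degree_linear_le (by norm_num)
  · rw [← aeval_def]
    have h1 : aeval z (X ^ 2 - C t * X + C (q : ℤ) : ℤ[X]) = z ^ 2 - t * z + q := by simp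
    rw [h1]
    linear_combination hz

theorem log_pos' (p : ℕ) [Fact p.Prime] {a : ℕ} (ha : 0 < a) : 0 < Real.log ((p : ℝ) ^ a) :=
  Real.log_pos (one_lt_pow₀ (by exact_mod_cast (Fact.out : p.Prime).one_lt) ha.ne')

include ha hqp in
/-- The ordinary case. -/
theorem dv_ordinary {t : ℤ} (ht : IsCoprime t (q : ℤ)) {z : L} (hz : z ^ 2 + q = t * z) :
    (dv p a e z) ^ 2 = (Real.log ((p : ℝ) ^ a)) ^ 2 := by
  have hp0 : 0 < p := (Fact.out : p.Prime).pos
  have hq0 : (q : L) ≠ 0 := by rw [hqp]; push_cast; exact pow_ne_zero _ (by exact_mod_cast hp0.ne')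
  have hz0 : z ≠ 0 := by
    rintro rfl
    apply hq0
    linear_combination hz
  have hzt : (t : L) - z ≠ 0 := by
    intro h
    apply hq0
    linear_combination hz + z * h
  have hzi := isIntegral_of_quad hz
  have hti : IsIntegral ℤ ((t : L) - z) := by
    have h1 : IsIntegral ℤ ((t : L)) := by
      have := isIntegral_algebraMap (R := ℤ) (A := L) (x := t)
      simpa using this
    exact h1.sub hzi
  have h1 := norm_le_one_of_isIntegral p (e z) (hzi.map (e.restrictScalars ℤ))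
  have h2 := norm_le_one_of_isIntegral p (e ((t : L) - z)) (hti.map (e.restrictScalars ℤ))
  have hmul : ‖e z‖ * ‖e ((t : L) - z)‖ = ((p : ℝ) ^ a)⁻¹ := by
    rw [← norm_mul, ← map_mul, ← norm_pow_cast]
    congr 1
    have h3 : z * ((t : L) - z) = (q : L) := by linear_combination -hz
    rw [h3, map_natCast, hqp]
    push_cast
    rfl
  have hn1 : 0 < ‖e z‖ := norm_pos_iff.2 (by rw [Ne, map_eq_zero]; exact hz0)
  have hor : ‖e z‖ = 1 ∨ ‖e ((t : L) - z)‖ = 1 := by
    by_contra hcon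
    push Not at hcon
    have h3 : ‖e z‖ < 1 := lt_of_le_of_ne h1 hcon.1
    have h4 : ‖e ((t : L) - z)‖ < 1 := lt_of_le_of_ne h2 hcon.2
    have h5 := add_lt p h3 h4
    rw [← map_add, add_sub_cancel, map_intCast] at h5
    have h6 := dvd_of_norm_lt p t h5
    have h7 : (p : ℤ) ∣ (q : ℤ) := by
      rw [hqp]
      push_cast
      exact dvd_pow_self _ ha.ne'
    have h8 := ht.isUnit_of_dvd' h6 h7
    have h9 := Int.isUnit_iff.1 h8
    have h10 := (Fact.out : p.Prime).one_lt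
    omega
  have hlog : Real.log ‖(((p : ℚ) ^ a : ℚ) : PadicAlgCl p)‖ = - Real.log ((p : ℝ) ^ a) := by
    rw [norm_pow_cast, Real.log_inv]
  rcases hor with h | h
  · unfold dv dev
    rw [h, hlog, Real.log_one]
    ring
  · rw [h, mul_one] at hmul
    unfold dv dev
    rw [hmul, hlog, Real.log_inv]
    ring

include hqp in
/-- The supersingular case. -/
theorem dv_super {z : L} (hz : z ^ 24 = (q : L) ^ 12) : dv p a e z = 0 := by
  have hp0 : 0 < p := (Fact.out : p.Prime).pos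
  have h1 : ‖e z‖ ^ 24 = (((p : ℝ) ^ a)⁻¹) ^ 12 := by
    rw [← norm_pow, ← map_pow, hz, map_pow, norm_pow, map_natCast, ← norm_pow_cast, hqp]
    congr 2
    push_cast
    rfl
  have h2 := congrArg Real.log h1
  rw [Real.log_pow, Real.log_pow, Real.log_inv] at h2
  have hlog : Real.log ‖(((p : ℚ) ^ a : ℚ) : PadicAlgCl p)‖ = - Real.log ((p : ℝ) ^ a) := by
    rw [norm_pow_cast, Real.log_inv]
  unfold dv dev
  rw [hlog]
  push_cast at h2
  linarith

/-- Equal powers have the same deviation. -/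
theorem dv_congr {z z' : L} (hz : z' ^ 12 = z ^ 12) : dv p a e z' = dv p a e z := by
  have h1 : ‖e z'‖ ^ 12 = ‖e z‖ ^ 12 := by
    rw [← norm_pow, ← norm_pow, ← map_pow, ← map_pow, hz]
  have h2 := (pow_left_inj₀ (norm_nonneg _) (norm_nonneg _) (by norm_num : (12 : ℕ) ≠ 0)).1 h1
  unfold dv dev
  rw [h2]

theorem conj_cases (σ : L ≃ₐ[ℚ] L) {t : ℤ} {z : L} (hz : z ^ 2 + q = t * z) :
    σ z = z ∨ σ z = t - z := by
  have h1 : (σ z) ^ 2 + q = t * σ z := by
    have := congrArg σ hz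
    rw [map_add, map_pow, map_mul, map_natCast, map_intCast] at this
    exact this
  have h2 : (σ z - z) * (σ z - (t - z)) = 0 := by linear_combination h1 - hz
  rcases mul_eq_zero.1 h2 with h | h
  · exact Or.inl (sub_eq_zero.1 h)
  · exact Or.inr (sub_eq_zero.1 h)

theorem root_conj (σ : L ≃ₐ[ℚ] L) {t : ℤ} {z : L} (hz : z ^ 2 + q = t * z) :
    (σ z) ^ 2 + q = t * σ z := by
  have := congrArg σ hz
  rw [map_add, map_pow, map_mul, map_natCast, map_intCast] at this
  exact this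

include hqp in
theorem dv_bar {t : ℤ} {z : L} (hz : z ^ 2 + q = t * z) : dv p a e (t - z) = - dv p a e z := by
  have hp0 : 0 < p := (Fact.out : p.Prime).pos
  have hq0 : (q : L) ≠ 0 := by rw [hqp]; push_cast; exact pow_ne_zero _ (by exact_mod_cast hp0.ne')
  have hz0 : z ≠ 0 := by
    rintro rfl
    apply hq0
    linear_combination hz
  have hp1 : ((p : ℚ) ^ a) ≠ 0 := pow_ne_zero _ (by exact_mod_cast hp0.ne')
  have h1 : (t : L) - z = (q : L) / z := by
    rw [eq_div_iff hz0]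
    linear_combination -hz
  unfold dv
  rw [h1, ← dev_inv p hp1 (e z) (by rw [Ne, map_eq_zero]; exact hz0)]
  congr 1
  rw [map_div₀, map_natCast, hqp]
  push_cast
  rfl

include hqp in
/-- The sum of the products vanishes if an automorphism changes one factor only. -/
theorem sum_zero {t t' : ℤ} {z z' : L} (hz : z ^ 2 + q = t * z) (hz' : z' ^ 2 + q = t' * z')
    (τ : L ≃ₐ[ℚ] L) (h : ¬ (τ z = z ↔ τ z' = z')) :
    ∑ σ : L ≃ₐ[ℚ] L, dv p a e (σ z) * dv p a e (σ z') = 0 := by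
  have h1 : ∀ σ : L ≃ₐ[ℚ] L, dv p a e ((σ * τ) z) * dv p a e ((σ * τ) z') =
      - (dv p a e (σ z) * dv p a e (σ z')) := by
    intro σ
    have e1 : (σ * τ) z = σ (τ z) := rfl
    have e2 : (σ * τ) z' = σ (τ z') := rfl
    rw [e1, e2]
    by_cases h2 : τ z = z
    · have h3 : τ z' ≠ z' := fun h3 => h ⟨fun _ => h3, fun _ => h2⟩
      rw [h2, (conj_cases τ hz').resolve_left h3, map_sub, map_intCast,
        dv_bar p a hqp e (root_conj σ hz')]
      ring
    · have h3 : τ z' = z' := by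
        by_contra h3
        exact h ⟨fun h4 => absurd h4 h2, fun h4 => absurd h4 h3⟩
      rw [h3, (conj_cases τ hz).resolve_left h2, map_sub, map_intCast,
        dv_bar p a hqp e (root_conj σ hz)]
      ring
  have h2 : ∑ σ : L ≃ₐ[ℚ] L, dv p a e ((σ * τ) z) * dv p a e ((σ * τ) z') =
      ∑ σ : L ≃ₐ[ℚ] L, dv p a e (σ z) * dv p a e (σ z') :=
    Fintype.sum_equiv (Equiv.mulRight τ) _ _ fun σ => rfl
  rw [Finset.sum_congr rfl fun σ _ => h1 σ, Finset.sum_neg_distrib] at h2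
  linarith

variable [IsGalois ℚ L]

include hqp in
/-- If no automorphism changes one factor only, then both generate the same field. -/
theorem same_field {t t' : ℤ} {z z' : L} (hz : z ^ 2 + q = t * z) (hz' : z' ^ 2 + q = t' * z')
    (ht : t ^ 2 ≤ 4 * q) (ht' : t' ^ 2 ≤ 4 * q) (hc : IsCoprime t (q : ℤ))
    (hc' : IsCoprime t' (q : ℤ)) (h : ∀ τ : L ≃ₐ[ℚ] L, τ z = z ↔ τ z' = z') :
    (z * z') ^ 12 = (q : L) ^ 12 ∨ z' ^ 12 = z ^ 12 := by
  have hp0 : 0 < p := (Fact.out : p.Prime).pos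
  have hq0 : (q : L) ≠ 0 := by rw [hqp]; push_cast; exact pow_ne_zero _ (by exact_mod_cast hp0.ne')
  set w : L := (2 * z - t) * (2 * z' - t') with hw
  have hfix : ∀ τ : L ≃ₐ[ℚ] L, τ w = w := by
    intro τ
    by_cases h1 : τ z = z
    · have h2 := (h τ).1 h1
      rw [hw, map_mul, map_sub, map_sub, map_mul, map_mul, h1, h2, map_intCast, map_intCast,
        map_ofNat]
    · have h2 : τ z' ≠ z' := fun h3 => h1 ((h τ).2 h3)
      rw [hw, map_mul, map_sub, map_sub, map_mul, map_mul, (conj_cases τ hz).resolve_left h1,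
        (conj_cases τ hz').resolve_left h2, map_intCast, map_intCast, map_ofNat]
      ring
  have hmem : w ∈ (⊥ : IntermediateField ℚ L) := (IsGalois.mem_bot_iff_fixed w).2 hfix
  obtain ⟨r, hr⟩ := IntermediateField.mem_bot.1 hmem
  have hzi := isIntegral_of_quad hz
  have hzi' := isIntegral_of_quad hz'
  have hint : ∀ n : ℤ, IsIntegral ℤ ((n : L)) := by
    intro n
    have := isIntegral_algebraMap (R := ℤ) (A := L) (x := n)
    simpa using this
  have hwi : IsIntegral ℤ w := by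
    refine IsIntegral.mul (IsIntegral.sub (IsIntegral.mul ?_ hzi) (hint t))
      (IsIntegral.sub (IsIntegral.mul ?_ hzi') (hint t'))
    · exact_mod_cast hint 2
    · exact_mod_cast hint 2
  have hri : IsIntegral ℤ r := by
    rw [← hr] at hwi
    exact (isIntegral_algebraMap_iff (algebraMap ℚ L).injective).1 hwi
  obtain ⟨m, hm⟩ := IsIntegrallyClosed.algebraMap_eq_of_integral hri
  have hmw : w = (m : L) := by
    rw [← hr, ← hm]
    simp
  exact pow_of_same (Fact.out : p.Prime) hqp ht ht' hc hc' hz hz' hmw (by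
    intro h1
    apply hq0
    rw [h1] at hz
    linear_combination hz)

include ha hqp in
/-- **The second moment.** -/
theorem card_le {m : ℕ} (t : Fin m → ℤ) (x : Fin m → L) (hx : ∀ k, x k ^ 2 + q = t k * x k)
    (ht : ∀ k, IsElliptic q (t k)) (hno : ∀ k l, k ≠ l → (x k * x l) ^ 24 ≠ (q : L) ^ 24) (B : ℝ)
    (hB : ∀ σ : L ≃ₐ[ℚ] L, |∑ k, dv p a e (σ (x k))| ≤ B * Real.log ((p : ℝ) ^ a)) :
    (((Finset.univ.filter fun k => IsCoprime (t k) (q : ℤ)).card : ℕ) : ℝ) ≤ B ^ 2 ∧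
      (Finset.univ.filter fun k => ¬ IsCoprime (t k) (q : ℤ)).card ≤ 1 := by
  classical
  have hp0 : 0 < p := (Fact.out : p.Prime).pos
  have hq : q ≠ 0 := by rw [hqp]; exact pow_ne_zero _ hp0.ne'
  have hss : ∀ k, ¬ IsCoprime (t k) (q : ℤ) → x k ^ 24 = (q : L) ^ 12 := fun k hk =>
    pow_of_dvd hq (ht k).1 ((ht k).2.resolve_left hk) (hx k)
  constructor
  · set O := Finset.univ.filter fun k => IsCoprime (t k) (q : ℤ) with hO
    set lam := Real.log ((p : ℝ) ^ a) with hlam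
    have hlpos : 0 < lam := log_pos' p ha
    have hsum : ∀ σ : L ≃ₐ[ℚ] L, ∑ k, dv p a e (σ (x k)) = ∑ k ∈ O, dv p a e (σ (x k)) := by
      intro σ
      refine (Finset.sum_subset (Finset.subset_univ O) fun k _ hk => ?_).symm
      have hk' : ¬ IsCoprime (t k) (q : ℤ) := fun h => hk (by rw [hO]; simpa using h)
      apply dv_super p a hqp e
      rw [← map_pow, hss k hk', map_pow, map_natCast]
    have hG : (0 : ℝ) < Fintype.card (L ≃ₐ[ℚ] L) := by exact_mod_cast Fintype.card_pos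
    have hsq : ∀ k ∈ O, ∀ σ : L ≃ₐ[ℚ] L, dv p a e (σ (x k)) ^ 2 = lam ^ 2 := by
      intro k hk σ
      exact dv_ordinary p a ha hqp e (Finset.mem_filter.1 hk).2 (root_conj σ (hx k))
    have hoff : ∀ k ∈ O, ∀ l ∈ O, k ≠ l →
        0 ≤ ∑ σ : L ≃ₐ[ℚ] L, dv p a e (σ (x k)) * dv p a e (σ (x l)) := by
      intro k hk l hl hkl
      by_cases h : ∀ τ : L ≃ₐ[ℚ] L, τ (x k) = x k ↔ τ (x l) = x l
      · rcases same_field p a hqp (hx k) (hx l) (ht k).1 (ht l).1 (Finset.mem_filter.1 hk).2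
          (Finset.mem_filter.1 hl).2 h with h1 | h1
        · exfalso
          apply hno k l hkl
          calc (x k * x l) ^ 24 = ((x k * x l) ^ 12) ^ 2 := by ring
            _ = _ := by rw [h1]; ring
        · refine Finset.sum_nonneg fun σ _ => ?_
          have h2 : dv p a e (σ (x l)) = dv p a e (σ (x k)) := by
            apply dv_congr
            rw [← map_pow, ← map_pow, h1]
          rw [h2]
          exact mul_self_nonneg _
      · push Not at h
        obtain ⟨τ, hτ⟩ := h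
        rw [sum_zero p a hqp e (hx k) (hx l) τ (by
          rcases hτ with h1 | h1
          · exact fun h2 => h1.2 (h2.1 h1.1)
          · exact fun h2 => h1.1 (h2.2 h1.2))]
    have htot : ∑ σ : L ≃ₐ[ℚ] L, (∑ k ∈ O, dv p a e (σ (x k))) ^ 2 =
        ∑ k ∈ O, ∑ l ∈ O, ∑ σ : L ≃ₐ[ℚ] L, dv p a e (σ (x k)) * dv p a e (σ (x l)) := by
      rw [Finset.sum_congr rfl fun σ _ => by rw [sq, Finset.sum_mul_sum]]
      rw [Finset.sum_comm]
      refine Finset.sum_congr rfl fun k _ => ?_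
      rw [Finset.sum_comm]
    have hlow : (O.card : ℝ) * (Fintype.card (L ≃ₐ[ℚ] L) * lam ^ 2) ≤
        ∑ σ : L ≃ₐ[ℚ] L, (∑ k ∈ O, dv p a e (σ (x k))) ^ 2 := by
      rw [htot]
      have h1 : (O.card : ℝ) * (Fintype.card (L ≃ₐ[ℚ] L) * lam ^ 2) =
          ∑ _k ∈ O, (Fintype.card (L ≃ₐ[ℚ] L) * lam ^ 2 : ℝ) := by
        rw [Finset.sum_const, nsmul_eq_mul]
      rw [h1]
      refine Finset.sum_le_sum fun k hk => ?_
      rw [← Finset.add_sum_erase O _ hk]
      have h2 : ∑ σ : L ≃ₐ[ℚ] L, dv p a e (σ (x k)) * dv p a e (σ (x k)) =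
          Fintype.card (L ≃ₐ[ℚ] L) * lam ^ 2 := by
        rw [Finset.sum_congr rfl fun σ _ => by rw [← sq, hsq k hk σ], Finset.sum_const,
          Finset.card_univ, nsmul_eq_mul]
      rw [h2]
      have h3 : 0 ≤ ∑ l ∈ O.erase k, ∑ σ : L ≃ₐ[ℚ] L, dv p a e (σ (x k)) * dv p a e (σ (x l)) :=
        Finset.sum_nonneg fun l hl => hoff k hk l (Finset.mem_of_mem_erase hl)
          (Finset.ne_of_mem_erase hl).symm
      linarith
    have hup : ∑ σ : L ≃ₐ[ℚ] L, (∑ k ∈ O, dv p a e (σ (x k))) ^ 2 ≤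
        Fintype.card (L ≃ₐ[ℚ] L) * (B * lam) ^ 2 := by
      have h1 : (Fintype.card (L ≃ₐ[ℚ] L) * (B * lam) ^ 2 : ℝ) =
          ∑ _σ : L ≃ₐ[ℚ] L, (B * lam) ^ 2 := by
        rw [Finset.sum_const, Finset.card_univ, nsmul_eq_mul]
      rw [h1]
      refine Finset.sum_le_sum fun σ _ => ?_
      have h2 := hB σ
      rw [hsum σ] at h2
      rw [← sq_abs]
      exact pow_le_pow_left₀ (abs_nonneg _) h2 2
    have h4 := hlow.trans hup
    have h5 : (0 : ℝ) < Fintype.card (L ≃ₐ[ℚ] L) * lam ^ 2 := by positivity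
    refine le_of_mul_le_mul_right ?_ h5
    calc (O.card : ℝ) * (Fintype.card (L ≃ₐ[ℚ] L) * lam ^ 2) ≤ _ := h4
      _ = _ := by ring
  · rw [Finset.card_le_one]
    intro k hk l hl
    by_contra hkl
    apply hno k l hkl
    rw [mul_pow, hss k (Finset.mem_filter.1 hk).2, hss l (Finset.mem_filter.1 hl).2]
    ring

end

end Pool.Agent.K6.H99.EC
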