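import Mathlib
import Pool.Agent.K6.H99.AC.Odd
import Pool.Agent.K6.H99.EC.Rel
import Pool.Agent.W484.HS.Abs

/-!
# Products of Frobenius eigenvalues of elliptic curves and of a curve
-/

set_option autoImplicit false
set_option linter.unusedSectionVars false

namespace Pool.Agent.K6.H99.EC

open Polynomial Pool.Agent.H925R2 Pool.Agent.H485R3 Pool.Agent.W484.BB Pool.Agent.W521.Frob
  Pool.Agent.W521.Criterion Pool.Agent.W484.AA Pool.Agent.W484.HS Pool.Agent.K6.H99.AC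

theorem ellipticPoly_monic (q : ℕ) (t : {t : ℤ // IsElliptic q t}) : (ellipticPoly q t).Monic := by
  unfold ellipticPoly
  have h1 : (X ^ 2 - C t.1 * X + C (q : ℤ) : ℤ[X]) = X ^ 2 + (- C t.1 * X + C (q : ℤ)) := by ring
  rw [h1]
  refine monic_X_pow_add ?_
  have h2 : (- C t.1 * X + C (q : ℤ) : ℤ[X]) = C (-t.1) * X + C (q : ℤ) := by rw [map_neg]
  rw [h2]
  exact lt_of_le_of_lt degree_linear_le (by norm_num)

theorem aeval_ellipticPoly {K : Type*} [Field K] (q : ℕ) (t : {t : ℤ // IsElliptic q t}) (z : K) :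
    aeval z (ellipticPoly q t) = 0 ↔ z ^ 2 + q = t.1 * z := by
  have h1 : aeval z (ellipticPoly q t) = z ^ 2 - t.1 * z + q := by
    unfold ellipticPoly
    simp
  rw [h1]
  constructor
  · intro h
    linear_combination h
  · intro h
    linear_combination h

/-- The absolute value of the roots. -/
theorem norm_root {q : ℕ} {t : ℤ} (ht : t ^ 2 ≤ 4 * q) {z : ℂ} (hz : z ^ 2 + q = t * z) :
    ‖z‖ ^ 2 = q := by
  have ht' : (t : ℝ) ^ 2 ≤ 4 * q := by exact_mod_cast ht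
  have h1 := congrArg Complex.re hz
  have h2 := congrArg Complex.im hz
  simp only [Complex.add_re, Complex.add_im, sq, Complex.mul_re, Complex.mul_im, Complex.natCast_re,
    Complex.natCast_im, Complex.intCast_re, Complex.intCast_im, zero_mul, sub_zero, add_zero] at h1 h2
  rw [← Complex.normSq_eq_norm_sq, Complex.normSq_apply]
  by_cases hy : z.im = 0
  · rw [hy] at h1 ⊢
    have h3 : (2 * z.re - t) ^ 2 ≤ 0 := by nlinarith
    have h4 : 2 * z.re - t = 0 := by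
      have := le_antisymm h3 (sq_nonneg _)
      exact pow_eq_zero_iff (two_ne_zero) |>.1 this
    nlinarith
  · have h3 : 2 * z.re = t := by
      have h4 : z.im * (2 * z.re - t) = 0 := by linear_combination h2
      have := (mul_eq_zero.1 h4).resolve_left hy
      linarith
    rw [← h3] at h1
    linarith

section

variable {p : ℕ} [Fact p.Prime] {a : ℕ} (ha : 0 < a) {q : ℕ} (hqp : q = p ^ a)

include ha hqp in
/-- The bound for the relations in `ℂ`. -/
theorem rel_bound {n : ℕ} (t : Fin n → ℤ) (z : Fin n → ℂ) (hz : ∀ k, z k ^ 2 + q = t k * z k)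
    (ht : ∀ k, IsElliptic q (t k)) (hno : ∀ k l, k ≠ l → (z k * z l) ^ 24 ≠ (q : ℂ) ^ 24)
    (ρ ρ' : ℂ) (hρ : IsIntegral ℤ ρ) (hρ' : IsIntegral ℤ ρ') (w s c N : ℕ) (hs : 0 < s) (hN : 0 < N)
    (hρρ : ρ * ρ' = (q : ℂ) ^ w) (hrel : ((∏ k, z k) ^ s * ρ) ^ N = (((q : ℂ) ^ s) ^ c) ^ N)
    (hpar : n * s + w = 2 * c * s) :
    (((Finset.univ.filter fun k => IsCoprime (t k) (q : ℤ)).card : ℕ) : ℝ) ≤ ((w : ℝ) / s) ^ 2 ∧
      (Finset.univ.filter fun k => ¬ IsCoprime (t k) (q : ℤ)).card ≤ 1 := by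
  classical
  have hp0 : 0 < p := (Fact.out : p.Prime).pos
  have hq : q ≠ 0 := by rw [hqp]; exact pow_ne_zero _ hp0.ne'
  let h : Fin n → ℤ[X] := fun k => X - C (t k)
  have hm : ∀ k, (h k).Monic := fun k => monic_X_sub_C _
  obtain ⟨L, _, _, _, j, hL⟩ := exists_field q h hm
  have hzw : ∀ k, aeval (z k) (weil q (h k)) = 0 := by
    intro k
    rw [aeval_weil q (h k) (z k) (t k) (hz k)]
    simp [h]
  choose x hx using fun k => hL k (z k) (hzw k)
  have hxr : ∀ k, x k ^ 2 + q = t k * x k := by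
    intro k
    apply j.injective
    rw [map_add, map_pow, map_mul, map_natCast, map_intCast, hx]
    exact hz k
  have hqL : (q : L) ≠ 0 := by exact_mod_cast hq
  have hqC : (q : ℂ) ≠ 0 := by exact_mod_cast hq
  have hx0 : ∀ k, x k ≠ 0 := by
    intro k h0
    have h1 := hxr k
    rw [h0] at h1
    apply hqL
    linear_combination h1
  have hz0 : ∀ k, z k ≠ 0 := fun k => by rw [← hx k, Ne, map_eq_zero]; exact hx0 k
  let e : L →ₐ[ℚ] PadicAlgCl p := IsAlgClosed.lift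
  have hnoL : ∀ k l, k ≠ l → (x k * x l) ^ 24 ≠ (q : L) ^ 24 := by
    intro k l hkl h1
    apply hno k l hkl
    have h2 := congrArg j h1
    rwa [map_pow, map_mul, map_pow, map_natCast, hx, hx] at h2
  set R : L := (q : L) ^ (s * c * N) / (∏ k, x k) ^ (s * N) with hR
  have hxp : (∏ k, x k) ≠ 0 := Finset.prod_ne_zero_iff.2 fun k _ => hx0 k
  have hzp : (∏ k, z k) ≠ 0 := Finset.prod_ne_zero_iff.2 fun k _ => hz0 k
  have hρ0 : ρ ≠ 0 := by
    intro h0
    rw [h0, zero_mul] at hρρ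
    exact pow_ne_zero w hqC hρρ.symm
  have hjR : j R = ρ ^ N := by
    rw [hR, map_div₀, map_pow, map_pow, map_prod, map_natCast, Finset.prod_congr rfl fun k _ => hx k,
      div_eq_iff (pow_ne_zero _ hzp)]
    have h3 : ((∏ k, z k) ^ s * ρ) ^ N = ρ ^ N * (∏ k, z k) ^ (s * N) := by
      rw [mul_pow, ← pow_mul, mul_comm]
    rw [← h3, hrel, ← pow_mul, ← pow_mul]
    congr 1
    ring
  have hR0 : R ≠ 0 := div_ne_zero (pow_ne_zero _ hqL) (pow_ne_zero _ hxp)
  have hRint : IsIntegral ℤ R := isIntegral_of_map j R (by rw [hjR]; exact hρ.pow N)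
  have hRint' : IsIntegral ℤ ((((p : ℚ) ^ (a * (w * N)) : ℚ) : L) / R) := by
    apply isIntegral_of_map j
    rw [map_div₀, map_ratCast, hjR]
    have h1 : ((((p : ℚ) ^ (a * (w * N)) : ℚ)) : ℂ) / ρ ^ N = ρ' ^ N := by
      rw [div_eq_iff (pow_ne_zero _ hρ0), ← mul_pow, mul_comm ρ' ρ, hρρ, hqp]
      push_cast
      rw [← pow_mul, ← pow_mul]
    rw [h1]
    exact hρ'.pow N
  have hlogq : Real.log ‖(((p : ℚ) ^ a : ℚ) : PadicAlgCl p)‖ = - Real.log ((p : ℝ) ^ a) := by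
    rw [norm_pow_cast, Real.log_inv]
  have hsN : (0 : ℝ) < (s : ℝ) * N := by positivity
  refine card_le p a ha hqp e t x hxr ht hnoL _ fun σ => ?_
  have h1 := abs_dev_le p (a * (w * N)) (e (σ R)) (by
    rw [Ne, map_eq_zero, map_eq_zero]; exact hR0)
    ((hRint.map (σ.toAlgHom.restrictScalars ℤ)).map (e.restrictScalars ℤ)) (by
      have h4 := (hRint'.map (σ.toAlgHom.restrictScalars ℤ)).map (e.restrictScalars ℤ)
      have h5 : (e.restrictScalars ℤ) ((σ.toAlgHom.restrictScalars ℤ)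
          ((((p : ℚ) ^ (a * (w * N)) : ℚ) : L) / R)) =
          (((p : ℚ) ^ (a * (w * N)) : ℚ) : PadicAlgCl p) / e (σ R) := by
        change e (σ ((((p : ℚ) ^ (a * (w * N)) : ℚ) : L) / R)) = _
        rw [map_div₀, map_div₀, map_ratCast, map_ratCast]
      rw [h5] at h4
      exact h4)
  have h2 : Real.log ‖e (σ R)‖ = (s * c * N : ℝ) * (- Real.log ((p : ℝ) ^ a)) -
      (s * N : ℝ) * ∑ k, Real.log ‖e (σ (x k))‖ := by
    have h3 : e (σ R) = (((p : ℚ) ^ a : ℚ) : PadicAlgCl p) ^ (s * c * N) /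
        (∏ k, e (σ (x k))) ^ (s * N) := by
      rw [hR, map_div₀, map_div₀, map_pow, map_pow, map_pow, map_pow, map_prod, map_prod,
        map_natCast, map_natCast, hqp]
      push_cast
      rfl
    have hne : ∀ k, ‖e (σ (x k))‖ ≠ 0 := by
      intro k
      rw [norm_ne_zero_iff, Ne, map_eq_zero, map_eq_zero]
      exact hx0 k
    have hpne : ‖(((p : ℚ) ^ a : ℚ) : PadicAlgCl p)‖ ≠ 0 := by
      rw [norm_pow_cast]
      have : (0 : ℝ) < p := by exact_mod_cast hp0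
      positivity
    rw [h3, norm_div, norm_pow, norm_pow, norm_prod, Real.log_div (pow_ne_zero _ hpne)
      (pow_ne_zero _ (Finset.prod_ne_zero_iff.2 fun k _ => hne k)), Real.log_pow, Real.log_pow,
      Real.log_prod (fun k _ => hne k), hlogq]
    push_cast
    ring
  have h3 : ∑ k, dv p a e (σ (x k)) = 2 * ∑ k, Real.log ‖e (σ (x k))‖ +
      n * Real.log ((p : ℝ) ^ a) := by
    have h4 : ∀ k, dv p a e (σ (x k)) = 2 * Real.log ‖e (σ (x k))‖ + Real.log ((p : ℝ) ^ a) := by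
      intro k
      unfold dv dev
      rw [hlogq]
      ring
    rw [Finset.sum_congr rfl fun k _ => h4 k, Finset.sum_add_distrib, ← Finset.mul_sum,
      Finset.sum_const, Finset.card_univ, Fintype.card_fin, nsmul_eq_mul]
  have hpow : Real.log ((p : ℝ) ^ (a * (w * N))) = (w * N : ℝ) * Real.log ((p : ℝ) ^ a) := by
    rw [pow_mul, Real.log_pow]
    push_cast
    rfl
  have hpar' : (n : ℝ) * s + w = 2 * c * s := by exact_mod_cast hpar
  have h4 : dev p ((p : ℚ) ^ (a * (w * N))) (e (σ R)) =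
      - ((s * N : ℝ) * ∑ k, dv p a e (σ (x k))) := by
    unfold dev
    rw [norm_pow_cast, Real.log_inv, h2, h3, hpow]
    linear_combination ((N : ℝ) * Real.log ((p : ℝ) ^ a)) * hpar'
  rw [h4, abs_neg, hpow, abs_mul, abs_of_pos hsN] at h1
  have hs' : (0 : ℝ) < s := by exact_mod_cast hs
  have hN' : (0 : ℝ) < N := by exact_mod_cast hN
  rw [div_mul_eq_mul_div, le_div_iff₀ hs']
  have h5 : (N : ℝ) * (|∑ k, dv p a e (σ (x k))| * s) ≤ N * (w * Real.log ((p : ℝ) ^ a)) := by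
    calc (N : ℝ) * (|∑ k, dv p a e (σ (x k))| * s) = s * N * |∑ k, dv p a e (σ (x k))| := by ring
      _ ≤ _ := h1
      _ = _ := by ring
  exact le_of_mul_le_mul_left h5 hN'

/-- The roots in a field. -/
abbrev Root (K : Type*) [Field K] (q : ℕ) : Type _ := {z : K // ∃ t, aeval z (ellipticPoly q t) = 0}

include ha hqp in
theorem count_rel (s : ℕ) (hs : 0 < s) (h24 : 24 ∣ s) (ys : List (Root ℂ q))
    (hpw : ys.Pairwise fun y y' : Root ℂ q => (y : ℂ) ^ s * (y' : ℂ) ^ s ≠ (q : ℂ) ^ s)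
    (ρ ρ' : ℂ) (hρ : IsIntegral ℤ ρ) (hρ' : IsIntegral ℤ ρ') (w c N : ℕ) (hN : 0 < N)
    (hρρ : ρ * ρ' = (q : ℂ) ^ w)
    (hrel : ((ys.map fun y : Root ℂ q => (y : ℂ) ^ s).prod * ρ) ^ N = (((q : ℂ) ^ s) ^ c) ^ N)
    (hpar : ys.length * s + w = 2 * c * s) (B : ℕ) (hB : w = B * s) : ys.length ≤ B ^ 2 + 1 := by
  classical
  choose t ht using fun y : Root ℂ q => y.2
  have hz : ∀ y : Root ℂ q, (y : ℂ) ^ 2 + q = (t y).1 * (y : ℂ) := fun y =>
    (aeval_ellipticPoly q (t y) (y : ℂ)).1 (ht y)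
  obtain ⟨d, hd⟩ := h24
  have hno : ∀ k l : Fin ys.length, k < l →
      ((ys.get k : ℂ) * (ys.get l : ℂ)) ^ 24 ≠ (q : ℂ) ^ 24 := by
    intro k l hkl h1
    refine (List.pairwise_iff_get.1 hpw) k l hkl ?_
    rw [← mul_pow, hd, pow_mul, h1, ← pow_mul]
  have hprod : (∏ k : Fin ys.length, (ys.get k : ℂ)) ^ s = (ys.map fun y : Root ℂ q => (y : ℂ) ^ s).prod := by
    rw [← Finset.prod_pow, ← List.prod_ofFn]
    congr 1
    apply List.ext_getElem
    · simp
    · intro i h1 h2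
      simp
  obtain ⟨h1, h2⟩ := rel_bound ha hqp (fun k : Fin ys.length => (t (ys.get k)).1)
    (fun k => (ys.get k : ℂ)) (fun k => hz (ys.get k)) (fun k => (t (ys.get k)).2)
    (fun k l hkl => by
      rcases lt_or_gt_of_ne hkl with h | h
      · exact hno k l h
      · rw [mul_comm]
        exact hno l k h)
    ρ ρ' hρ hρ' w s c N hs hN hρρ (by rw [hprod]; exact hrel) hpar
  have h3 := Finset.card_filter_add_card_filter_not (s := (Finset.univ : Finset (Fin ys.length)))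
    (fun k => IsCoprime (t (ys.get k)).1 (q : ℤ))
  rw [Finset.card_univ, Fintype.card_fin] at h3
  have hs' : (s : ℝ) ≠ 0 := by exact_mod_cast hs.ne'
  have h4 : ((w : ℝ) / s) ^ 2 = ((B ^ 2 : ℕ) : ℝ) := by
    rw [hB]
    push_cast
    rw [mul_div_assoc, div_self hs', mul_one]
  rw [h4] at h1
  have h5 : (Finset.univ.filter fun k => IsCoprime (t (ys.get k)).1 (q : ℤ)).card ≤ B ^ 2 := by
    exact_mod_cast h1
  omega

theorem norm_prod {q s : ℕ} (ys : List (Root ℂ q)) :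
    ‖(ys.map fun y : Root ℂ q => (y : ℂ) ^ s).prod‖ ^ 2 = ((q : ℝ) ^ s) ^ ys.length := by
  induction ys with
  | nil => simp
  | cons y ys ih =>
    obtain ⟨t, ht⟩ := y.2
    have h1 := norm_root t.2.1 ((aeval_ellipticPoly q t (y : ℂ)).1 ht)
    rw [List.map_cons, List.prod_cons, norm_mul, mul_pow, ih, norm_pow, ← pow_mul,
      mul_comm s 2, pow_mul, h1, List.length_cons, pow_succ', mul_comm]

/-- The relations over `ℂ` which involve a Weil number of weight one. -/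
theorem oddPair_elliptic {q : ℕ} (hqpp : IsPrimePow q) (s : ℕ) (hs : 0 < s) (h24 : 24 ∣ s) (ρ : ℂ)
    (hρ : IsIntegral ℤ ρ) (hρn : ‖ρ‖ ^ 2 = (q : ℝ) ^ s) :
    OddPairK (fun y : Root ℂ q => (y : ℂ) ^ s) ((q : ℂ) ^ s) ρ := by
  have hqpp' := hqpp
  rw [isPrimePow_nat_iff] at hqpp
  obtain ⟨p, a, hp, ha, hqp⟩ := hqpp
  have : Fact p.Prime := ⟨hp⟩
  have hq1 : 1 < q := hqpp'.one_lt
  have hqpos : (0 : ℝ) < q := by exact_mod_cast (by omega : 0 < q)
  intro n c ys hlen hrel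
  have h1 : (n : ℤ) + 1 = 2 * c := by
    have h3 := congrArg (fun z : ℂ => ‖z‖ ^ 2) hrel
    beta_reduce at h3
    rw [norm_mul, mul_pow, norm_prod, hρn, hlen, norm_zpow, norm_pow, Complex.norm_natCast] at h3
    have h4 : (((q : ℝ) ^ s) ^ c) ^ 2 = ((q : ℝ) ^ s) ^ (2 * c) := by
      rw [← zpow_natCast, ← zpow_mul, mul_comm]
      norm_num
    rw [h4, ← pow_succ, ← zpow_natCast] at h3
    have hQ1 : (1 : ℝ) < (q : ℝ) ^ s := one_lt_pow₀ (by exact_mod_cast hq1) hs.ne'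
    have h5 := zpow_right_injective₀ (by positivity) hQ1.ne' h3
    push_cast at h5
    exact h5
  refine ⟨h1, fun hn1 hpw => hn1 ?_⟩
  obtain ⟨c', rfl⟩ : ∃ c' : ℕ, c = c' := ⟨c.toNat, by omega⟩
  have h2 := count_rel ha hqp.symm s hs h24 ys hpw ρ (starRingEnd ℂ ρ) hρ
    (hρ.map ((starRingEnd ℂ).toIntAlgHom)) s c' 1 one_pos (by
      rw [Complex.mul_conj, Complex.normSq_eq_norm_sq, hρn]
      push_cast
      rfl) (by
      rw [pow_one, pow_one]
      rw [zpow_natCast] at hrel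
      exact hrel) (by
      rw [hlen]
      have h3 : n + 1 = 2 * c' := by exact_mod_cast h1
      calc n * s + s = (n + 1) * s := by ring
        _ = 2 * c' * s := by rw [h3]) 1 (by rw [one_mul])
  rw [hlen] at h2
  omega

/-- The relations over `ℂ`. -/
theorem exactPair_elliptic {q : ℕ} (hqpp : IsPrimePow q) (s : ℕ) (hs : 0 < s) (h24 : 24 ∣ s) :
    ExactPairK (fun y : Root ℂ q => (y : ℂ) ^ s) ((q : ℂ) ^ s) 1 := by
  have hqpp' := hqpp
  rw [isPrimePow_nat_iff] at hqpp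
  obtain ⟨p, a, hp, ha, hqp⟩ := hqpp
  have : Fact p.Prime := ⟨hp⟩
  have hq1 : 1 < q := hqpp'.one_lt
  have hqpos : (0 : ℝ) < q := by exact_mod_cast (by omega : 0 < q)
  intro n c N hN hn ys hlen hrel hpw
  have h1 : (n : ℤ) = 2 * c := by
    have h3 := congrArg (fun z : ℂ => ‖z‖ ^ 2) hrel
    beta_reduce at h3
    rw [mul_one, norm_pow, pow_right_comm, norm_prod, hlen, norm_pow (((q : ℂ) ^ s) ^ c), norm_zpow,
      norm_pow, Complex.norm_natCast, pow_right_comm _ N 2] at h3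
    have h4 : (((q : ℝ) ^ s) ^ c) ^ 2 = ((q : ℝ) ^ s) ^ (2 * c) := by
      rw [← zpow_natCast, ← zpow_mul, mul_comm]
      norm_num
    rw [h4, ← zpow_natCast _ N, ← zpow_natCast _ N, ← zpow_natCast _ n, ← zpow_mul, ← zpow_mul] at h3
    have hQ1 : (1 : ℝ) < (q : ℝ) ^ s := one_lt_pow₀ (by exact_mod_cast hq1) hs.ne'
    have h5 := zpow_right_injective₀ (by positivity) hQ1.ne' h3
    have hN' : (N : ℤ) ≠ 0 := by exact_mod_cast hN.ne'
    exact mul_right_cancel₀ hN' h5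
  obtain ⟨c', rfl⟩ : ∃ c' : ℕ, c = c' := ⟨c.toNat, by omega⟩
  have h2 := count_rel ha hqp.symm s hs h24 ys hpw 1 1 isIntegral_one isIntegral_one 0 c' N hN (by
      rw [one_mul, pow_zero]) (by
      rw [zpow_natCast] at hrel
      exact hrel) (by
      rw [hlen]
      have h3 : n = 2 * c' := by exact_mod_cast h1
      rw [h3, add_zero]) 0 (by rw [zero_mul])
  rw [hlen] at h2
  omega

end

section field

variable {K : Type*} [Field K] [CharZero K]

/-- From a field of characteristic zero to `ℂ`. -/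
theorem transfer {q : ℕ} (s : ℕ) (ys : List (Root K q)) (χ : ℤ[X]) (hχ : χ.Monic) (ρ : K)
    (hρ : aeval ρ χ = 0) :
    ∃ (ρ' : ℂ) (ys' : List (Root ℂ q)), aeval ρ' χ = 0 ∧ ys'.length = ys.length ∧
      (∀ (N : ℕ) (c : ℤ), ((ys.map fun y : Root K q => (y : K) ^ s).prod * ρ) ^ N =
        (((q : K) ^ s) ^ c) ^ N → ((ys'.map fun y : Root ℂ q => (y : ℂ) ^ s).prod * ρ') ^ N =
          (((q : ℂ) ^ s) ^ c) ^ N) ∧
      (ys.Pairwise (fun y y' : Root K q => (y : K) ^ s * (y' : K) ^ s ≠ (q : K) ^ s) →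
        ys'.Pairwise (fun y y' : Root ℂ q => (y : ℂ) ^ s * (y' : ℂ) ^ s ≠ (q : ℂ) ^ s)) := by
  classical
  have hmem : ∀ z : K, (∃ p : ℤ[X], p.Monic ∧ aeval z p = 0) → z ∈ algebraicClosure ℚ K := by
    rintro z ⟨p, hp, hz⟩
    rw [mem_algebraicClosure_iff]
    refine ⟨p.map (algebraMap ℤ ℚ), (hp.map _).ne_zero, ?_⟩
    rw [aeval_map_algebraMap]
    exact hz
  have halg : Algebra.IsAlgebraic ℚ (algebraicClosure ℚ K) := algebraicClosure.isAlgebraic ℚ K
  let j : algebraicClosure ℚ K →ₐ[ℚ] ℂ := IsAlgClosed.lift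
  have hj : ∀ (p : ℤ[X]) (z : K) (hz : z ∈ algebraicClosure ℚ K), aeval z p = 0 →
      aeval (j ⟨z, hz⟩) p = 0 := by
    intro p z hz hi
    have h2 := Polynomial.hom_eval₂ p (algebraMap ℤ _)
      (j : algebraicClosure ℚ K →+* ℂ) ⟨z, hz⟩
    rw [RingHom.ext_int ((j : algebraicClosure ℚ K →+* ℂ).comp (algebraMap ℤ _))
      (algebraMap ℤ ℂ)] at h2
    have h3 : eval₂ (algebraMap ℤ (algebraicClosure ℚ K)) (⟨z, hz⟩ :
        algebraicClosure ℚ K) p = 0 := by
      apply (algebraMap (algebraicClosure ℚ K) K).injective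
      rw [map_zero, Polynomial.hom_eval₂, RingHom.ext_int ((algebraMap (algebraicClosure ℚ K)
        K).comp (algebraMap ℤ _)) (algebraMap ℤ K)]
      exact hi
    rw [h3, map_zero] at h2
    exact h2.symm
  have hρm := hmem ρ ⟨χ, hχ, hρ⟩
  have hzm : ∀ z : Root K q, (z : K) ∈ algebraicClosure ℚ K := by
    rintro ⟨z, i, hi⟩
    exact hmem z ⟨_, ellipticPoly_monic q i, hi⟩
  have hz : ∀ z : Root K q, ∃ i, aeval (j ⟨z, hzm z⟩) (ellipticPoly q i) = 0 := by
    rintro ⟨z, i, hi⟩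
    exact ⟨i, hj _ z _ hi⟩
  let φ : Root K q → Root ℂ q := fun z => ⟨j ⟨z, hzm z⟩, hz z⟩
  refine ⟨j ⟨ρ, hρm⟩, ys.map φ, hj χ ρ hρm hρ, by rw [List.length_map], ?_, ?_⟩
  · intro N c hrel
    have hrel0 : (((ys.map (fun z : Root K q =>
        (⟨z, hzm z⟩ : algebraicClosure ℚ K) ^ s)).prod * ⟨ρ, hρm⟩)) ^ N =
          (((q : algebraicClosure ℚ K) ^ s) ^ c) ^ N := by
      apply (algebraMap (algebraicClosure ℚ K) K).injective
      rw [map_pow, map_mul, _root_.map_list_prod, List.map_map, map_pow, map_zpow₀, map_pow,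
        map_natCast]
      exact hrel
    have h4 := congrArg j hrel0
    rw [map_pow, map_mul, _root_.map_list_prod j, List.map_map, map_pow, map_zpow₀, map_pow,
      map_natCast] at h4
    rw [List.map_map, ← h4]
    congr 4
    funext z
    change (j ⟨z, hzm z⟩) ^ s = j (⟨z, hzm z⟩ ^ s)
    rw [map_pow]
  · intro hpw
    rw [List.pairwise_map]
    refine hpw.imp ?_
    intro a b hab h5
    apply hab
    change (j ⟨a, hzm a⟩) ^ s * (j ⟨b, hzm b⟩) ^ s = (q : ℂ) ^ s at h5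
    have h6 : (⟨a, hzm a⟩ : algebraicClosure ℚ K) ^ s * ⟨b, hzm b⟩ ^ s =
        (q : algebraicClosure ℚ K) ^ s := by
      apply (j : algebraicClosure ℚ K →+* ℂ).injective
      rw [map_mul, map_pow, map_pow, map_pow, map_natCast]
      exact h5
    have h7 := congrArg (algebraMap (algebraicClosure ℚ K) K) h6
    rw [map_mul, map_pow, map_pow, map_pow, map_natCast] at h7
    exact h7

variable {q : ℕ} (hqpp : IsPrimePow q) (s : ℕ) (hs : 0 < s) (h24 : 24 ∣ s)

include hqpp hs h24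

/-- The relations over a field of characteristic zero. -/
theorem oddPair_field (χ : ℤ[X]) (hχ : χ.Monic)
    (hχn : ∀ ρ : ℂ, aeval ρ χ = 0 → ‖ρ‖ ^ 2 = (q : ℝ) ^ s) (ρ : K) (hρ : aeval ρ χ = 0) :
    OddPairK (fun y : Root K q => (y : K) ^ s) ((q : K) ^ s) ρ := by
  intro n c ys hlen hrel
  obtain ⟨ρ', ys', h1, h2, h3, h4⟩ := transfer s ys χ hχ ρ hρ
  obtain ⟨h5, h6⟩ := oddPair_elliptic hqpp s hs h24 ρ' ⟨χ, hχ, h1⟩ (hχn ρ' h1) n c ys'
    (h2.trans hlen) (by
      have h7 := h3 1 c (by rw [pow_one, pow_one]; exact hrel)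
      rw [pow_one, pow_one] at h7
      exact h7)
  exact ⟨h5, fun hn hpw => h6 hn (h4 hpw)⟩

theorem exactPair_field : ExactPairK (fun y : Root K q => (y : K) ^ s) ((q : K) ^ s) 1 := by
  intro n c N hN hn ys hlen hrel hpw
  have hX1 : (X - 1 : ℤ[X]).Monic := by
    have := monic_X_sub_C (1 : ℤ)
    rwa [map_one] at this
  obtain ⟨ρ', ys', h1, h2, h3, h4⟩ := transfer s ys (X - 1 : ℤ[X]) hX1 (1 : K) (by simp)
  have h5 : ρ' = 1 := by
    rw [map_sub, aeval_X, map_one] at h1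
    exact sub_eq_zero.1 h1
  subst h5
  exact exactPair_elliptic hqpp s hs h24 n c N hN hn ys' (h2.trans hlen) (h3 N c hrel) (h4 hpw)

end field

end Pool.Agent.K6.H99.EC
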